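import Pool.Agent.J4.H26.Ew.All4
import Pool.Agent.J4.H5.AS.PrimePower

/-!
# Few Gauss sums

The transfer of the theorem on Hodge characters with few entries to the lines of products of
Artin-Schreier curves, for all primes of odd order modulo the degree.
-/

set_option autoImplicit false
set_option linter.unusedSectionVars false

namespace Pool.Agent.J4.H5.PF

open Finset
open Pool.Agent.H916R2 (iota IsHodge iota_add iota_zero iota_neg iota_natMul iota_comp
  iota_eq_zero EE EE_add EE_neg)
open Pool.Agent.H916T Pool.Agent.H916Z Pool.Agent.J4.H5.AS Pool.Agent.J4.H26.Ew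
open Pool.Agent.Y2.Cv (SurfaceOrCurveProduct)

/-- Hodge characters of a degree dividing `M` whose classes over the complex numbers are known. -/
def FromComplex (M : ℕ) (t : Multiset (ZMod M)) : Prop :=
  ∃ c d : ℕ, c * d = M ∧ ∃ s : Multiset (ZMod d), IsHodge d s ∧
    H916R2.Generated (evenDegree d) (SurfaceOrCurveProduct (evenDegree d)) (s.map (raise d)) ∧
    t = s.map (iota c : ZMod d → ZMod M)

/-- the base of the closure -/
def PBase (p M : ℕ) (t : Multiset (ZMod M)) : Prop := ZBase p M t ∨ FromComplex M t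

lemma gen_mono {M : ℕ} {B B' : Multiset (ZMod M) → Prop} (hB : ∀ t, B t → B' t)
    {s : Multiset (ZMod M)} (h : H916T.Generated M B s) : H916T.Generated M B' s := by
  induction h with
  | ofBase s hs => exact H916T.Generated.ofBase _ (hB s hs)
  | pair a ha => exact H916T.Generated.pair a ha
  | join s t hs ht ihs iht => exact H916T.Generated.join _ _ ihs iht
  | cancel a s h ih => exact H916T.Generated.cancel a _ ih

lemma gen_lift {k d M : ℕ} [NeZero d] [NeZero M] (hk : k * d = M) {B : Multiset (ZMod d) → Prop}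
    {B' : Multiset (ZMod M) → Prop} (hB : ∀ t, B t → B' (t.map (iota k)))
    {s : Multiset (ZMod d)} (h : H916T.Generated d B s) :
    H916T.Generated M B' (s.map (iota k)) := by
  induction h with
  | ofBase s hs => exact H916T.Generated.ofBase _ (hB s hs)
  | pair a ha =>
    have h1 : (iota k a : ZMod M) ≠ 0 := fun h => ha (iota_eq_zero hk h)
    have h2 := H916T.Generated.pair (base := B') (iota k a : ZMod M) h1
    rw [Multiset.insert_eq_cons, Multiset.map_cons, Multiset.map_singleton, iota_neg hk]
    exact h2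
  | join s t hs ht ihs iht =>
    rw [Multiset.map_add]
    exact H916T.Generated.join _ _ ihs iht
  | cancel a s h ih =>
    rw [Multiset.map_cons, Multiset.map_cons, iota_neg hk] at ih
    exact H916T.Generated.cancel _ _ ih

lemma fromComplex_lift {k d M : ℕ} (hk : k * d = M) (t : Multiset (ZMod d))
    (ht : FromComplex d t) : FromComplex M (t.map (iota k : ZMod d → ZMod M)) := by
  obtain ⟨c, e, hce, s, h1, h2, rfl⟩ := ht
  refine ⟨k * c, e, by rw [mul_assoc, hce, hk], s, h1, h2, ?_⟩
  rw [Multiset.map_map]
  exact Multiset.map_congr rfl fun a _ => iota_comp hk a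

section orbit

variable {p m : ℕ}

/-- one step of the orbit -/
lemma orbit_step (s : Multiset (ZMod m)) (h0 : (0 : ZMod m) ∉ s) [NeZero m] (hpm : p.Coprime m)
    (j : ℕ) : ∃ t u : Multiset (ZMod m), (0 : ZMod m) ∉ t ∧ (0 : ZMod m) ∉ u ∧
      s + (t + t.map fun b => -((p : ZMod m) * b)) =
        s.map (fun a => (p : ZMod m) ^ j * a) + (u + u.map Neg.neg) := by
  have hu : IsUnit (p : ZMod m) := H916T.isUnit_p hpm
  have hpow : ∀ j : ℕ, (0 : ZMod m) ∉ s.map (fun a => (p : ZMod m) ^ j * a) := by
    intro j h
    obtain ⟨a, ha, h1⟩ := Multiset.mem_map.mp h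
    have h2 : a = 0 := ((hu.pow j).mul_right_eq_zero).mp h1
    exact h0 (h2 ▸ ha)
  induction j with
  | zero =>
    refine ⟨0, 0, Multiset.notMem_zero _, Multiset.notMem_zero _, ?_⟩
    simp
  | succ j ih =>
    obtain ⟨t, u, ht, hu', h⟩ := ih
    refine ⟨t + (s.map fun a => (p : ZMod m) ^ j * a).map Neg.neg,
      u + (s.map fun a => (p : ZMod m) ^ j * a), ?_, ?_, ?_⟩
    · rw [Multiset.mem_add, not_or]
      refine ⟨ht, fun h1 => ?_⟩
      obtain ⟨a, ha, h2⟩ := Multiset.mem_map.mp h1
      rw [neg_eq_zero] at h2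
      exact hpow j (h2 ▸ ha)
    · rw [Multiset.mem_add, not_or]
      exact ⟨hu', hpow j⟩
    · have e1 : ((s.map fun a => (p : ZMod m) ^ j * a).map Neg.neg).map
          (fun b => -((p : ZMod m) * b)) = s.map fun a => (p : ZMod m) ^ (j + 1) * a := by
        rw [Multiset.map_map, Multiset.map_map]
        refine Multiset.map_congr rfl fun a _ => ?_
        simp only [Function.comp_apply]
        ring
      rw [Multiset.map_add, Multiset.map_add, e1]
      calc s + (t + (s.map fun a => (p : ZMod m) ^ j * a).map Neg.neg +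
            (t.map (fun b => -((p : ZMod m) * b)) + s.map fun a => (p : ZMod m) ^ (j + 1) * a))
          = (s + (t + t.map fun b => -((p : ZMod m) * b))) +
            ((s.map fun a => (p : ZMod m) ^ j * a).map Neg.neg +
              s.map fun a => (p : ZMod m) ^ (j + 1) * a) := by
            ac_rfl
        _ = _ := by
            rw [h]
            ac_rfl

/-- the orbit -/
lemma orbit (s : Multiset (ZMod m)) (h0 : (0 : ZMod m) ∉ s) [NeZero m] (hpm : p.Coprime m)
    (f : ℕ) : ∃ t u : Multiset (ZMod m), (0 : ZMod m) ∉ t ∧ (0 : ZMod m) ∉ u ∧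
      f • s + (t + t.map fun b => -((p : ZMod m) * b)) =
        (∑ j ∈ range f, s.map (fun a => (p : ZMod m) ^ j * a)) + (u + u.map Neg.neg) := by
  induction f with
  | zero =>
    refine ⟨0, 0, Multiset.notMem_zero _, Multiset.notMem_zero _, ?_⟩
    simp
  | succ f ih =>
    obtain ⟨t, u, ht, hu, h⟩ := ih
    obtain ⟨t', u', ht', hu', h'⟩ := orbit_step s h0 hpm f
    refine ⟨t + t', u + u', ?_, ?_, ?_⟩
    · rw [Multiset.mem_add, not_or]; exact ⟨ht, ht'⟩
    · rw [Multiset.mem_add, not_or]; exact ⟨hu, hu'⟩
    · rw [succ_nsmul, sum_range_succ, Multiset.map_add, Multiset.map_add]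
      calc f • s + s + (t + t' + (t.map (fun b => -((p : ZMod m) * b)) +
            t'.map fun b => -((p : ZMod m) * b)))
          = (f • s + (t + t.map fun b => -((p : ZMod m) * b))) +
            (s + (t' + t'.map fun b => -((p : ZMod m) * b))) := by ac_rfl
        _ = _ := by
            rw [h, h']
            ac_rfl

/-- the union of the orbit is a Hodge character -/
lemma hodge_orbit [NeZero m] (hpm : p.Coprime m) {s : Multiset (ZMod m)} (h0 : (0 : ZMod m) ∉ s)
    (hev : Even (Multiset.card s)) (hs : Rel0 p s) :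
    IsHodge m (∑ j ∈ range (orderOf (p : ZMod m)), s.map (fun a => (p : ZMod m) ^ j * a)) ∧
      Multiset.card (∑ j ∈ range (orderOf (p : ZMod m)), s.map (fun a => (p : ZMod m) ^ j * a)) =
        orderOf (p : ZMod m) * Multiset.card s := by
  have hu : IsUnit (p : ZMod m) := H916T.isUnit_p hpm
  have hcard : Multiset.card (∑ j ∈ range (orderOf (p : ZMod m)),
      s.map (fun a => (p : ZMod m) ^ j * a)) = orderOf (p : ZMod m) * Multiset.card s := by
    have h4 : ∀ F : ℕ, Multiset.card (∑ j ∈ range F, s.map (fun a => (p : ZMod m) ^ j * a)) =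
        F * Multiset.card s := by
      intro F
      induction F with
      | zero => simp
      | succ F ih => rw [sum_range_succ, Multiset.card_add, ih, Multiset.card_map]; ring
    exact h4 _
  have hval : ∀ t : (ZMod m)ˣ, 2 * (((∑ j ∈ range (orderOf (p : ZMod m)),
      s.map (fun a => (p : ZMod m) ^ j * a))).map fun a => ((t : ZMod m) * a).val).sum =
      m * (orderOf (p : ZMod m) * Multiset.card s) := by
    intro t
    have h1 := val_sum_eq hpm s h0 t
    rw [hs t] at h1
    have h2 := sub_eq_zero.mp h1.symm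
    have h3 : 2 * ∑ j ∈ Finset.range (orderOf (p : ZMod m)),
        (s.map fun a => ((p : ZMod m) ^ j * ((t : ZMod m) * a)).val).sum =
        orderOf (p : ZMod m) * (m * Multiset.card s) := by exact_mod_cast h2
    have h4 : ∀ F : ℕ, ((∑ j ∈ range F, s.map (fun a => (p : ZMod m) ^ j * a)).map
        fun a => ((t : ZMod m) * a).val).sum = ∑ j ∈ Finset.range F,
        (s.map fun a => ((p : ZMod m) ^ j * ((t : ZMod m) * a)).val).sum := by
      intro F
      induction F with
      | zero => simp
      | succ F ih =>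
        rw [sum_range_succ, Multiset.map_add, Multiset.sum_add, ih, sum_range_succ,
          Multiset.map_map]
        congr 2
        refine Multiset.map_congr rfl fun a _ => ?_
        simp only [Function.comp_apply]
        congr 1
        ring
    rw [h4, h3]
    ring
  refine ⟨⟨?_, ?_, ?_, ?_⟩, hcard⟩
  · intro h
    rw [Multiset.mem_sum] at h
    obtain ⟨j, -, hj⟩ := h
    obtain ⟨a, ha, h1⟩ := Multiset.mem_map.mp hj
    have h2 : a = 0 := ((hu.pow j).mul_right_eq_zero).mp h1
    exact h0 (h2 ▸ ha)
  · rw [hcard]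
    exact hev.mul_left _
  · obtain ⟨c, hc⟩ := hev
    have h1 := hval 1
    simp only [Units.val_one, one_mul] at h1
    set S := ∑ j ∈ range (orderOf (p : ZMod m)), s.map (fun a => (p : ZMod m) ^ j * a) with hS
    have h2 : (S.map fun a => a.val).sum = m * (orderOf (p : ZMod m) * c) := by
      have : 2 * (S.map fun a => a.val).sum = 2 * (m * (orderOf (p : ZMod m) * c)) := by
        rw [h1, hc]; ring
      omega
    have h3 : (((S.map fun a => a.val).sum : ℕ) : ZMod m) = S.sum := by
      have : ∀ S : Multiset (ZMod m), (((S.map fun a => a.val).sum : ℕ) : ZMod m) = S.sum := by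
        intro S
        induction S using Multiset.induction_on with
        | empty => simp
        | cons a S ih =>
          rw [Multiset.map_cons, Multiset.sum_cons, Multiset.sum_cons, Nat.cast_add, ih,
            ZMod.natCast_zmod_val]
      exact this S
    rw [← h3, h2]
    simp
  · intro t
    rw [hval t, hcard]

end orbit

lemma Rel0.neg' {p m : ℕ} [NeZero m] {s : Multiset (ZMod m)} (hs : Rel0 p s) :
    Rel0 p (s.map Neg.neg) := by
  intro t
  rw [Multiset.map_map]
  have h1 : ((fun a => W p ((t : ZMod m) * a)) ∘ Neg.neg) = fun a : ZMod m =>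
      - W p ((t : ZMod m) * a) := by
    funext a
    simp only [Function.comp_apply]
    rw [mul_neg, W_neg]
  rw [h1]
  have h2 : ∀ s : Multiset (ZMod m), (s.map fun a => - W p ((t : ZMod m) * a)).sum =
      - (s.map fun a => W p ((t : ZMod m) * a)).sum := by
    intro s
    induction s using Multiset.induction_on with
    | empty => simp
    | cons a s ih => rw [Multiset.map_cons, Multiset.sum_cons, ih, Multiset.map_cons,
        Multiset.sum_cons]; ring
  rw [h2, hs t, neg_zero]

/-- **Few entries.** -/
theorem few {p m K : ℕ} (hp : p.Prime) (hm : 0 < m) (hpm : p.Coprime m)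
    (hf : Odd (orderOf (p : ZMod m))) (hC : PairsKnown (K * orderOf (p : ZMod m)) m)
    {s : Multiset (ZMod m)} (h0 : (0 : ZMod m) ∉ s) (hev : Even (Multiset.card s)) (hne : s ≠ 0)
    (hs : Rel0 p s) (hcard : Multiset.card s ≤ K) :
    ∃ N : ℕ, 0 < N ∧ p.Coprime N ∧ ∃ t : Multiset (ZMod (N * m)), (0 : ZMod (N * m)) ∉ t ∧
      H916T.Generated (N * m) (PBase p (N * m)) (s.map (iota N : ZMod m → ZMod (N * m)) +
        (t + t.map fun b => -((p : ZMod (N * m)) * b))) := by
  have hz : NeZero m := ⟨hm.ne'⟩
  set f := orderOf (p : ZMod m) with hfdef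
  obtain ⟨r, hr⟩ := hf
  -- the orbit
  obtain ⟨hH, hHc⟩ := hodge_orbit hpm h0 hev hs
  obtain ⟨T, U, hT, hU, hTU⟩ := orbit s h0 hpm f
  set S := ∑ j ∈ range f, s.map (fun a => (p : ZMod m) ^ j * a) with hS
  have hspos : 0 < Multiset.card s := Multiset.card_pos.mpr hne
  have hSne : S ≠ 0 := by
    intro h
    rw [h, Multiset.card_zero] at hHc
    have h1 : 0 < f * Multiset.card s := Nat.mul_pos (by omega) hspos
    rw [← hHc] at h1
    exact lt_irrefl _ h1
  have hSgen := all hm.ne' hC S hH hSne (by rw [hHc, mul_comm]; exact Nat.mul_le_mul_right f hcard)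
  have hSbase : FromComplex m S := by
    refine ⟨1, m, one_mul m, S, hH, hSgen, ?_⟩
    have : (iota 1 : ZMod m → ZMod m) = id := by
      funext a
      unfold iota
      rw [one_mul, ZMod.natCast_zmod_val]
      rfl
    rw [this, Multiset.map_id]
  have hG1 : H916T.Generated m (FromComplex m)
      (f • s + (T + T.map fun b => -((p : ZMod m) * b))) := by
    rw [hTU]
    by_cases hU0 : U = 0
    · subst hU0
      simpa using H916T.Generated.ofBase S hSbase
    · exact H916T.Generated.join _ _ (H916T.Generated.ofBase S hSbase)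
        (generated_add_neg U hU hU0)
  -- twice the negative
  have hn0 : (0 : ZMod m) ∉ s.map Neg.neg := by
    intro h
    obtain ⟨a, ha, h1⟩ := Multiset.mem_map.mp h
    rw [neg_eq_zero] at h1
    exact h0 (h1 ▸ ha)
  have hG2 : Gen2 p m (s.map Neg.neg + s.map Neg.neg) := by
    refine gen2_of_free hp hm hpm ?_ ?_ ?_ ?_ ?_
    · rw [Multiset.mem_add, not_or]; exact ⟨hn0, hn0⟩
    · rw [Multiset.card_add]; exact Even.add_self _
    · intro h
      have h1 := congrArg Multiset.card h
      rw [Multiset.card_add, Multiset.card_map, Multiset.card_zero] at h1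
      omega
    · exact (Rel0.neg' hs).add (Rel0.neg' hs)
    · intro n _ _ _ _ _ _ _
      rw [Multiset.countP_add]
      exact Even.add_self _
  obtain ⟨N, hN, hpN, t2, ht2, hY⟩ := hG2
  have hM : 0 < N * m := Nat.mul_pos hN hm
  have hzM : NeZero (N * m) := ⟨hM.ne'⟩
  have hpM : p.Coprime (N * m) := Nat.Coprime.mul_right hpN hpm
  refine ⟨N, hN, hpN, T.map (iota N) + r • t2, ?_, ?_⟩
  · rw [Multiset.mem_add, not_or]
    refine ⟨fun h => ?_, fun h => ht2 (Multiset.mem_of_mem_nsmul h)⟩
    obtain ⟨a, ha, h1⟩ := Multiset.mem_map.mp h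
    exact hT ((iota_eq_zero (rfl : N * m = N * m) h1) ▸ ha)
  set ι : ZMod m → ZMod (N * m) := iota N with hι
  have hX : H916T.Generated (N * m) (PBase p (N * m))
      ((f • s + (T + T.map fun b => -((p : ZMod m) * b))).map ι) :=
    gen_lift rfl (fun t ht => Or.inr (fromComplex_lift rfl t ht)) hG1
  have hY' : H916T.Generated (N * m) (PBase p (N * m))
      ((s.map Neg.neg + s.map Neg.neg).map ι + (t2 + t2.map fun b => -((p : ZMod (N * m)) * b))) :=
    gen_mono (fun t ht => Or.inl ht) hY
  have hXY : ∀ r : ℕ, H916T.Generated (N * m) (PBase p (N * m))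
      ((f • s + (T + T.map fun b => -((p : ZMod m) * b))).map ι + r •
        ((s.map Neg.neg + s.map Neg.neg).map ι +
          (t2 + t2.map fun b => -((p : ZMod (N * m)) * b)))) := by
    intro r
    induction r with
    | zero => simpa using hX
    | succ r ih =>
      rw [succ_nsmul, ← add_assoc]
      exact H916T.Generated.join _ _ ih hY'
  have hfin := hXY r
  have hneg : (s.map Neg.neg).map ι = (s.map ι).map Neg.neg := by
    rw [Multiset.map_map, Multiset.map_map]
    refine Multiset.map_congr rfl fun a _ => ?_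
    simp only [Function.comp_apply]
    exact iota_neg rfl a
  have hfrob : (T.map fun b => -((p : ZMod m) * b)).map ι =
      (T.map ι).map fun b => -((p : ZMod (N * m)) * b) := by
    rw [Multiset.map_map, Multiset.map_map]
    refine Multiset.map_congr rfl fun a _ => ?_
    simp only [Function.comp_apply]
    rw [hι, iota_neg rfl, iota_natMul rfl]
  set σ := s.map ι with hσ
  have e1 : (f • s + (T + T.map fun b => -((p : ZMod m) * b))).map ι + r •
        ((s.map Neg.neg + s.map Neg.neg).map ι +
          (t2 + t2.map fun b => -((p : ZMod (N * m)) * b))) =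
      (2 * r) • (σ + σ.map Neg.neg) + (σ + ((T.map ι + r • t2) +
        (T.map ι + r • t2).map fun b => -((p : ZMod (N * m)) * b))) := by
    rw [Multiset.map_add, Multiset.map_add, Multiset.map_add, Multiset.map_add, hneg, hfrob,
      Multiset.map_nsmul, Multiset.map_nsmul, hr, ← hσ]
    simp only [add_nsmul, mul_nsmul, one_nsmul, nsmul_add, two_nsmul]
    abel
  rw [e1] at hfin
  refine uncancel _ _ _ rfl ?_ ?_ ?_ hfin
  · intro h
    have h1 := Multiset.mem_of_mem_nsmul h
    rw [Multiset.mem_add] at h1
    have hσ0 : (0 : ZMod (N * m)) ∉ σ := by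
      intro h
      obtain ⟨a, ha, h1⟩ := Multiset.mem_map.mp h
      exact h0 ((iota_eq_zero (rfl : N * m = N * m) h1) ▸ ha)
    rcases h1 with h1 | h1
    · exact hσ0 h1
    · obtain ⟨a, ha, h2⟩ := Multiset.mem_map.mp h1
      rw [neg_eq_zero] at h2
      exact hσ0 (h2 ▸ ha)
  · rw [Multiset.card_nsmul]
    exact (even_two_mul r).mul_right _
  · have h1 : ∀ n : ℕ, EE (n • (σ + σ.map Neg.neg)) = 0 := by
      intro n
      induction n with
      | zero => rw [zero_nsmul]; exact H916R2.EE_zero
      | succ n ih => rw [succ_nsmul, EE_add, ih, EE_add, EE_neg]; simp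
    exact h1 _

end Pool.Agent.J4.H5.PF
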