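import Pool.Agent.J4.H5.PF.Few

/-!
# The orbit argument for an arbitrary family of known Hodge characters
-/

set_option autoImplicit false
set_option linter.unusedSectionVars false

namespace Pool.Agent.J4.H5.PF

open Finset
open Pool.Agent.H916R2 (iota IsHodge iota_add iota_zero iota_neg iota_natMul iota_comp
  iota_eq_zero EE EE_add EE_neg)
open Pool.Agent.H916T Pool.Agent.H916Z Pool.Agent.J4.H5.AS

lemma iota_one_eq {m : ℕ} [NeZero m] : (iota 1 : ZMod m → ZMod m) = id := by
  funext a
  unfold iota
  rw [one_mul, ZMod.natCast_zmod_val]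
  rfl

/-- **The orbit argument.** If the union of the conjugates of `s` is in a family `B` which is stable
under the change of the level, then `s` is reduced to `B`, surfaces and standard characters. -/
theorem few_gen {p m : ℕ} (hp : p.Prime) (hm : 0 < m) (hpm : p.Coprime m)
    (hf : Odd (orderOf (p : ZMod m))) (B : (M : ℕ) → Multiset (ZMod M) → Prop)
    (hB : ∀ (k d M : ℕ), k * d = M → ∀ t : Multiset (ZMod d), B d t →
      B M (t.map (iota k : ZMod d → ZMod M)))
    {s : Multiset (ZMod m)} (h0 : (0 : ZMod m) ∉ s) (hev : Even (Multiset.card s)) (hne : s ≠ 0)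
    (hs : Rel0 p s)
    (hSB : B m (∑ j ∈ range (orderOf (p : ZMod m)), s.map (fun a => (p : ZMod m) ^ j * a))) :
    ∃ N : ℕ, 0 < N ∧ p.Coprime N ∧ ∃ t : Multiset (ZMod (N * m)), (0 : ZMod (N * m)) ∉ t ∧
      H916T.Generated (N * m) (fun t => ZBase p (N * m) t ∨ B (N * m) t)
        (s.map (iota N : ZMod m → ZMod (N * m)) +
          (t + t.map fun b => -((p : ZMod (N * m)) * b))) := by
  have hz : NeZero m := ⟨hm.ne'⟩
  set f := orderOf (p : ZMod m) with hfdef
  obtain ⟨r, hr⟩ := hf
  -- the orbit
  obtain ⟨T, U, hT, hU, hTU⟩ := orbit s h0 hpm f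
  set S := ∑ j ∈ range f, s.map (fun a => (p : ZMod m) ^ j * a) with hS
  have hspos : 0 < Multiset.card s := Multiset.card_pos.mpr hne
  have hG1 : H916T.Generated m (B m)
      (f • s + (T + T.map fun b => -((p : ZMod m) * b))) := by
    rw [hTU]
    by_cases hU0 : U = 0
    · subst hU0
      simpa using H916T.Generated.ofBase S hSB
    · exact H916T.Generated.join _ _ (H916T.Generated.ofBase S hSB)
        (generated_add_neg U hU hU0)
  -- twice the negative
  have hn0 : (0 : ZMod m) ∉ s.map Neg.neg := by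
    intro h
    obtain ⟨a, ha, h1⟩ := Multiset.mem_map.mp h
    rw [neg_eq_zero] at h1
    exact h0 (h1 ▸ ha)
  have hG2 : Gen2 p m (s.map Neg.neg + s.map Neg.neg) := by
    refine gen2_of_free hp hm hpm ?_ ?_ ?_ ?_ ?_
    · rw [Multiset.mem_add, not_or]; exact ⟨hn0, hn0⟩
    · rw [Multiset.card_add]; exact Even.add_self _
    · intro h
      have h1 := congrArg Multiset.card h
      rw [Multiset.card_add, Multiset.card_map, Multiset.card_zero] at h1
      omega
    · exact (Rel0.neg' hs).add (Rel0.neg' hs)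
    · intro n _ _ _ _ _ _ _
      rw [Multiset.countP_add]
      exact Even.add_self _
  obtain ⟨N, hN, hpN, t2, ht2, hY⟩ := hG2
  have hM : 0 < N * m := Nat.mul_pos hN hm
  have hzM : NeZero (N * m) := ⟨hM.ne'⟩
  have hpM : p.Coprime (N * m) := Nat.Coprime.mul_right hpN hpm
  refine ⟨N, hN, hpN, T.map (iota N) + r • t2, ?_, ?_⟩
  · rw [Multiset.mem_add, not_or]
    refine ⟨fun h => ?_, fun h => ht2 (Multiset.mem_of_mem_nsmul h)⟩
    obtain ⟨a, ha, h1⟩ := Multiset.mem_map.mp h
    exact hT ((iota_eq_zero (rfl : N * m = N * m) h1) ▸ ha)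
  set ι : ZMod m → ZMod (N * m) := iota N with hι
  have hX : H916T.Generated (N * m) (fun t => ZBase p (N * m) t ∨ B (N * m) t)
      ((f • s + (T + T.map fun b => -((p : ZMod m) * b))).map ι) :=
    gen_lift rfl (fun t ht => Or.inr (hB _ _ _ rfl t ht)) hG1
  have hY' : H916T.Generated (N * m) (fun t => ZBase p (N * m) t ∨ B (N * m) t)
      ((s.map Neg.neg + s.map Neg.neg).map ι + (t2 + t2.map fun b => -((p : ZMod (N * m)) * b))) :=
    gen_mono (fun t ht => Or.inl ht) hY
  have hXY : ∀ r : ℕ, H916T.Generated (N * m) (fun t => ZBase p (N * m) t ∨ B (N * m) t)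
      ((f • s + (T + T.map fun b => -((p : ZMod m) * b))).map ι + r •
        ((s.map Neg.neg + s.map Neg.neg).map ι +
          (t2 + t2.map fun b => -((p : ZMod (N * m)) * b)))) := by
    intro r
    induction r with
    | zero => simpa using hX
    | succ r ih =>
      rw [succ_nsmul, ← add_assoc]
      exact H916T.Generated.join _ _ ih hY'
  have hfin := hXY r
  have hneg : (s.map Neg.neg).map ι = (s.map ι).map Neg.neg := by
    rw [Multiset.map_map, Multiset.map_map]
    refine Multiset.map_congr rfl fun a _ => ?_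
    simp only [Function.comp_apply]
    exact iota_neg rfl a
  have hfrob : (T.map fun b => -((p : ZMod m) * b)).map ι =
      (T.map ι).map fun b => -((p : ZMod (N * m)) * b) := by
    rw [Multiset.map_map, Multiset.map_map]
    refine Multiset.map_congr rfl fun a _ => ?_
    simp only [Function.comp_apply]
    rw [hι, iota_neg rfl, iota_natMul rfl]
  set σ := s.map ι with hσ
  have e1 : (f • s + (T + T.map fun b => -((p : ZMod m) * b))).map ι + r •
        ((s.map Neg.neg + s.map Neg.neg).map ι +
          (t2 + t2.map fun b => -((p : ZMod (N * m)) * b))) =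
      (2 * r) • (σ + σ.map Neg.neg) + (σ + ((T.map ι + r • t2) +
        (T.map ι + r • t2).map fun b => -((p : ZMod (N * m)) * b))) := by
    rw [Multiset.map_add, Multiset.map_add, Multiset.map_add, Multiset.map_add, hneg, hfrob,
      Multiset.map_nsmul, Multiset.map_nsmul, hr, ← hσ]
    simp only [add_nsmul, mul_nsmul, one_nsmul, nsmul_add, two_nsmul]
    abel
  rw [e1] at hfin
  refine uncancel _ _ _ rfl ?_ ?_ ?_ hfin
  · intro h
    have h1 := Multiset.mem_of_mem_nsmul h
    rw [Multiset.mem_add] at h1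
    have hσ0 : (0 : ZMod (N * m)) ∉ σ := by
      intro h
      obtain ⟨a, ha, h1⟩ := Multiset.mem_map.mp h
      exact h0 ((iota_eq_zero (rfl : N * m = N * m) h1) ▸ ha)
    rcases h1 with h1 | h1
    · exact hσ0 h1
    · obtain ⟨a, ha, h2⟩ := Multiset.mem_map.mp h1
      rw [neg_eq_zero] at h2
      exact hσ0 (h2 ▸ ha)
  · rw [Multiset.card_nsmul]
    exact (even_two_mul r).mul_right _
  · have h1 : ∀ n : ℕ, EE (n • (σ + σ.map Neg.neg)) = 0 := by
      intro n
      induction n with
      | zero => rw [zero_nsmul]; exact H916R2.EE_zero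
      | succ n ih => rw [succ_nsmul, EE_add, ih, EE_add, EE_neg]; simp
    exact h1 _

end Pool.Agent.J4.H5.PF
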