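import Pool.Agent.J4.H5.PF.Gen
import Pool.Agent.J4.H26.Eu.One

/-!
# Everything from one degree
-/

set_option autoImplicit false
set_option linter.unusedSectionVars false

namespace Pool.Agent.J4.H5.PF

open Finset
open Pool.Agent.H916R2 (iota IsHodge iota_comp FromLevel)
open Pool.Agent.H916T Pool.Agent.H916Z Pool.Agent.J4.H5.AS
open Pool.Agent.J4.H26.Fn (factor level)
open Pool.Agent.J4.H26.Eu (smoothPart smooth_split from_one)

/-- Hodge characters, of any degree `d ∣ M`, which over the complex numbers come from finitely many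
Hodge characters -/
def FromOne (K M : ℕ) (t : Multiset (ZMod M)) : Prop :=
  ∃ c d : ℕ, c * d = M ∧ ∃ s : Multiset (ZMod d), IsHodge d s ∧
    H916R2.Generated (factor K * d)
      (fun u => ∃ D : ℕ, D ∣ level K ∧ D ∣ d ∧ (∀ l : ℕ, l.Prime → l ∣ D → l ≤ 4 * K + 1) ∧
        FromLevel (factor K * d) D u ∧ Multiset.card u ≤ K)
      (s.map fun b => ((factor K * b.val : ℕ) : ZMod (factor K * d))) ∧
    t = s.map (iota c : ZMod d → ZMod M)

lemma gen_mono2 {M : ℕ} {B B' : Multiset (ZMod M) → Prop} (hB : ∀ t, B t → B' t)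
    {s : Multiset (ZMod M)} (h : H916R2.Generated M B s) : H916R2.Generated M B' s := by
  induction h with
  | ofBase s hs => exact H916R2.Generated.ofBase _ (hB s hs)
  | pair a ha => exact H916R2.Generated.pair a ha
  | standard p hp hp2 hpm a ha => exact H916R2.Generated.standard p hp hp2 hpm a ha
  | standardTwo hm a ha => exact H916R2.Generated.standardTwo hm a ha
  | join s t hs ht ihs iht => exact H916R2.Generated.join _ _ ihs iht
  | cancel a s h ih => exact H916R2.Generated.cancel a _ ih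

lemma fromOne_lift {K k d M : ℕ} (hk : k * d = M) (t : Multiset (ZMod d))
    (ht : FromOne K d t) : FromOne K M (t.map (iota k : ZMod d → ZMod M)) := by
  obtain ⟨c, e, hce, s, h1, h2, rfl⟩ := ht
  refine ⟨k * c, e, by rw [mul_assoc, hce, hk], s, h1, h2, ?_⟩
  rw [Multiset.map_map]
  exact Multiset.map_congr rfl fun a _ => iota_comp hk a

/-- **Everything from one degree.** -/
theorem few_one {p m K : ℕ} (hp : p.Prime) (hm : 0 < m) (hpm : p.Coprime m)
    (hf : Odd (orderOf (p : ZMod m))) (hK : 2 ≤ K) (hKe : Even K)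
    {s : Multiset (ZMod m)} (h0 : (0 : ZMod m) ∉ s) (hev : Even (Multiset.card s)) (hne : s ≠ 0)
    (hs : Rel0 p s) (hcard : Multiset.card s ≤ K) :
    ∃ N : ℕ, 0 < N ∧ p.Coprime N ∧ ∃ t : Multiset (ZMod (N * m)), (0 : ZMod (N * m)) ∉ t ∧
      H916T.Generated (N * m)
        (fun t => ZBase p (N * m) t ∨ FromOne (K * orderOf (p : ZMod m)) (N * m) t)
        (s.map (iota N : ZMod m → ZMod (N * m)) +
          (t + t.map fun b => -((p : ZMod (N * m)) * b))) := by
  have hz : NeZero m := ⟨hm.ne'⟩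
  refine few_gen hp hm hpm hf (fun M t => FromOne (K * orderOf (p : ZMod m)) M t)
    (fun k d M hk t ht => fromOne_lift hk t ht) h0 hev hne hs ?_
  obtain ⟨hH, hHc⟩ := hodge_orbit hpm h0 hev hs
  set f := orderOf (p : ZMod m) with hfdef
  have hf0 : 0 < f := hf.pos
  set S := ∑ j ∈ range f, s.map (fun a => (p : ZMod m) ^ j * a) with hS
  have hspos : 0 < Multiset.card s := Multiset.card_pos.mpr hne
  have hSne : S ≠ 0 := by
    intro h
    rw [h, Multiset.card_zero] at hHc
    have h1 : 0 < f * Multiset.card s := Nat.mul_pos hf0 hspos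
    rw [← hHc] at h1
    exact lt_irrefl _ h1
  have hK2 : 2 ≤ K * f := le_trans hK (Nat.le_mul_of_pos_right K hf0)
  have hgen := from_one (K := K * f) hK2 (hKe.mul_right f) hm.ne' S hH hSne
    (by rw [hHc, mul_comm]; exact Nat.mul_le_mul_right f hcard)
  refine ⟨1, m, one_mul m, S, hH, gen_mono2 (fun u hu => ?_) hgen, ?_⟩
  · obtain ⟨e, hde, hd, -⟩ := smooth_split (N := 4 * (K * f) + 1) hm.ne'
    refine ⟨_, Nat.gcd_dvd_left _ _, (Nat.gcd_dvd_right _ _).trans (Dvd.intro e hde), ?_, hu⟩
    intro l hl hld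
    exact hd l hl (hld.trans (Nat.gcd_dvd_right _ _))
  · rw [iota_one_eq, Multiset.map_id]

end Pool.Agent.J4.H5.PF
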